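import Mathlib
import Pool.Agent.H.MP_66c699_al.A
import Pool.Agent.H.MP_e16db3_al.A

set_option autoImplicit false

namespace Pool.Agent.Results.MP_66c699_al.Torsion

open Equiv Pool.Agent.H.MP_66c699_al Pool.Agent.H.MP_e16db3_al

def patch {X : Type} (f : X → Perm (List X)) : Perm (List X) where
  toFun w := match w with | [] => [] | y :: w => y :: f y w
  invFun w := match w with | [] => [] | y :: w => y :: (f y)⁻¹ w
  left_inv w := by cases w <;> simp
  right_inv w := by cases w <;> simp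

theorem result (d D : ℕ) (hd : 2 ≤ d) (hD : 1 ≤ D) (P : Subgroup (Perm {w : List (Fin d) // w.length ≤ D}))
    (G K : Subgroup (Perm (List (Fin d))))
    (hG : ∀ g, g ∈ G ↔ ((∀ w, (g w).length = w.length) ∧ ∀ v w, g v <+: g (v ++ w)) ∧
      ∀ v, ∃ p ∈ P, ∀ w : {w : List (Fin d) // w.length ≤ D}, (g (v ++ w.1)).drop v.length = (p w).1)
    (hK : ∀ g, g ∈ K ↔ g ∈ G ∧ ∀ w : List (Fin d), w.length = D - 1 → g w = w) :
    ∃ N : ℕ, 0 < N ∧ ∀ g ∈ K, ∀ n : ℕ, ∃ h ∈ ⁅K, K⁆, ∀ w : List (Fin d), w.length ≤ n → (g ^ N) w = h w := by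
  have len : ∀ g : G, ∀ w, (g.1 w).length = w.length := fun g => ((hG g).1 g.2).1.1
  have nil : ∀ g : G, g.1 [] = [] := fun g => List.length_eq_zero_iff.1 (len g [])
  have hd1 : ∀ (g : G) x, ∃ y, ∀ w, g.1 (x :: w) = y :: (g.1 (x :: w)).tail := fun g x => by
    obtain ⟨y, hy⟩ := List.length_eq_one_iff.1 (len g [x])
    refine ⟨y, fun w => ?_⟩
    obtain ⟨u, hu⟩ := ((hG g).1 g.2).1.2 [x] w
    rw [hy] at hu
    change _ = g.1 (x :: w) at hu
    rw [← hu]
    rfl
  have ex : ∀ (g : G) x, ∃ (y : Fin d) (h : G), Rl g.1 x y h.1 := fun g x => by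
    obtain ⟨y, hy⟩ := hd1 g x
    obtain ⟨z, hz⟩ := hd1 g⁻¹ y
    obtain rfl : z = x := by
      have := hz (g.1 [x]).tail
      rw [← hy] at this
      simpa using (List.cons.inj (this.symm.trans (by simp : _ = [x]))).1
    let h : Perm (List (Fin d)) := ⟨fun w => (g.1 (z :: w)).tail, fun w => (g⁻¹.1 (y :: w)).tail,
      fun w => by simp only; rw [← hy]; simp, fun w => by simp only; rw [← hz]; simp⟩
    refine ⟨y, ⟨h, (hG h).2 ⟨⟨fun w => by simp [h, len], fun v w => ?_⟩, fun v => ?_⟩⟩, hy⟩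
    · have := ((hG g).1 g.2).1.2 (z :: v) w
      rw [hy, List.cons_append, hy (v ++ w)] at this
      exact (List.cons_prefix_cons.1 this).2
    · obtain ⟨p, hp, e⟩ := ((hG g).1 g.2).2 (z :: v)
      exact ⟨p, hp, fun w => by simpa [h] using e w⟩
  choose act sec rl using ex
  have mu : ∀ g h x, act (g * h) x = act g (act h x) ∧ sec (g * h) x = sec g (act h x) * sec h x := fun g h x =>
    ((rl (g * h) x).uniq ((rl h x).mul (rl g _))).imp id Subtype.ext
  let _ : MulAction G (Fin d) :=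
    { smul := act
      one_smul := fun x => ((rl 1 x).uniq (Rl.one x)).1
      mul_smul := fun g h x => (mu g h x).1 }
  let ρ : ∀ m, G →* Perm {w : List (Fin d) // w.length ≤ m} := fun m =>
    MonoidHom.mk' (fun g => g.1.subtypePerm fun w => by rw [len]) fun _ _ => rfl
  have : ∀ m, Finite {w : List (Fin d) // w.length ≤ m} := fun m => (List.finite_length_le (Fin d) m).to_subtype
  let St : ℕ → Subgroup G := fun n => (ρ (D - 1 + n)).ker
  have hS : ∀ n (g : G), g ∈ St n ↔ ∀ w : List (Fin d), w.length ≤ D - 1 + n → g.1 w = w := fun n g =>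
    ⟨fun h w hw => congrArg Subtype.val (Equiv.congr_fun (MonoidHom.mem_ker.1 h) ⟨w, hw⟩),
      fun h => MonoidHom.mem_ker.2 (Equiv.ext fun w => Subtype.ext (h w.1 w.2))⟩
  have pG : ∀ f : Fin d → G, (∀ x, f x ∈ St 0) → patch (fun x => (f x).1) ∈ G := fun f hf => by
    refine (hG _).2 ⟨⟨fun w => by cases w <;> simp [patch, len], fun v w => ?_⟩, fun v => ?_⟩
    · cases v with
      | nil => exact List.nil_prefix
      | cons y v => exact List.cons_prefix_cons.2 ⟨rfl, ((hG _).1 (f y).2).1.2 v w⟩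
    · cases v with
      | nil =>
        refine ⟨1, P.one_mem, fun ⟨w, hw⟩ => ?_⟩
        cases w with
        | nil => rfl
        | cons y w => exact congrArg (y :: ·) ((hS 0 _).1 (hf y) w (by simp at hw; omega))
      | cons y v => exact ((hG _).1 (f y).2).2 v
  let pa : (Fin d → St 0) →* G := MonoidHom.mk' (fun f => ⟨_, pG (fun x => (f x).1) fun x => (f x).2⟩) fun f g =>
    Subtype.ext (Equiv.ext fun w => by cases w <;> rfl)
  have pr : ∀ f y, Rl (pa f).1 y y (f y).1.1 := fun _ _ _ => rfl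
  have ext : ∀ g h : G, (∀ x, ∃ y k, Rl g.1 x y k ∧ Rl h.1 x y k) → g = h := fun g h H =>
    Subtype.ext (Equiv.ext fun w => by
      cases w with
      | nil => rw [nil, nil]
      | cons x w => obtain ⟨y, k, a, b⟩ := H x; rw [a, b])
  classical
  let ins : Fin d → G → G := fun x k => if h : k ∈ St 0 then pa (Pi.mulSingle x ⟨k, h⟩) else 1
  have le0 : ∀ n, St n ≤ St 0 := fun n k hk => (hS 0 k).2 fun w hw => (hS n k).1 hk w (by omega)
  have ir : ∀ x, ∀ k ∈ St 0, ∀ y, Rl (ins x k).1 y y (if y = x then k.1 else 1) := fun x k hk y => by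
    simp only [ins, dif_pos hk]
    refine (pr _ y).of_eq rfl rfl ?_
    split_ifs with h
    · simp [h]
    · simp [h]
  have sm : ∀ m ∈ St 1, ∀ x, act m x = x ∧ sec m x ∈ St 0 := fun m hm x =>
    ⟨(List.cons.inj ((rl m x []).symm.trans ((hS 1 m).1 hm [x] (by simp)))).1, (hS 0 _).2 fun w hw =>
      (List.cons.inj ((rl m x w).symm.trans ((hS 1 m).1 hm (x :: w) (by simp; omega)))).2⟩
  refine ⟨(St 0).index * (St 1).index, Nat.pos_of_ne_zero (mul_ne_zero Subgroup.FiniteIndex.index_ne_zero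
    Subgroup.FiniteIndex.index_ne_zero), fun g hg n => ?_⟩
  have kK : ∀ g : G, g ∈ St 0 ↔ g.1 ∈ K := fun g => by
    rw [hS, hK]
    refine ⟨fun h => ⟨g.2, fun w hw => h w (by omega)⟩, fun h w hw => ?_⟩
    have a := ((hG _).1 g.2).1.2 w (List.replicate (D - 1 - w.length) ⟨0, by omega⟩)
    rw [h.2 (w ++ _) (by rw [List.length_append, List.length_replicate]; omega)] at a
    exact (List.prefix_of_prefix_length_le a (List.prefix_append _ _) (len g w).le).eq_of_length (len g w)
  let J := ((St n).subgroupOf (St 0)).map Abelianization.of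
  let φ : St 0 →* Abelianization (St 0) ⧸ J := (QuotientGroup.mk' J).comp Abelianization.of
  let ψ : G → Abelianization (St 0) ⧸ J := fun g => if h : g ∈ St 0 then φ ⟨g, h⟩ else 1
  have m1 : Mu (St 0) ψ := fun a ha b hb => by
    simp only [ψ, dif_pos ha, dif_pos hb, dif_pos ((St 0).mul_mem ha hb), ← map_mul]
    rfl
  have g0 : (⟨g, ((hK g).1 hg).1⟩ : G) ∈ St 0 := (kK _).2 hg
  have key := core sec ins St (le0 1) (fun g h x => (mu g h x).2) (fun n x k hk => (hS _ _).2 fun w hw => ?_)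
    (fun x k hk => ((rl _ x).uniq (ir x k hk x)).imp id fun e => Subtype.ext (by simpa using e))
    (fun x a ha b hb => ?_) (fun s x k hk => ext _ _ fun y => ?_) (fun m hm => ⟨sm m hm, fun ψ hψ => ?_⟩) n (St 0) ψ le_rfl m1
    (fun s hs k hk => ?_) (fun k hk => ?_) _ g0
  · rw [← m1.pow ((St 0).pow_mem g0 _), ← pow_mul] at key
    have gN := (St 0).pow_mem g0 ((St 0).index * (St 1).index)
    simp only [ψ, dif_pos gN] at key
    obtain ⟨m, hm, e⟩ := (QuotientGroup.eq_one_iff _).1 key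
    have e2 : ⟨_, gN⟩ * m⁻¹ ∈ commutator (St 0) := by
      rw [← Abelianization.ker_of, MonoidHom.mem_ker, map_mul, map_inv, e, mul_inv_cancel]
    refine ⟨_, ?_, fun w hw => (?_ : _ = (g ^ ((St 0).index * (St 1).index) * m.1.1⁻¹) w)⟩
    · have := Subgroup.mem_map_of_mem (G.subtype.comp (St 0).subtype) e2
      rw [commutator_def, Subgroup.map_commutator] at this
      refine Subgroup.commutator_mono ?_ ?_ this <;> rintro _ ⟨a, -, rfl⟩ <;> exact (kK _).1 a.2
    · rw [Perm.mul_apply, show m.1.1⁻¹ w = w from (hS n _).1 ((St n).inv_mem hm) w (by omega)]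
  · cases w with
    | nil => exact nil _
    | cons y w =>
      rw [ir x k (le0 n hk) y]
      split_ifs
      · rw [(hS n k).1 hk w (by simp at hw; omega)]
      · rfl
  · simp only [ins, dif_pos ha, dif_pos hb, dif_pos ((St 0).mul_mem ha hb), ← map_mul, ← Pi.mulSingle_mul]
    rfl
  · obtain ⟨y, rfl⟩ : ∃ z, y = s • z := ⟨s⁻¹ • y, by simp⟩
    refine ⟨_, _, ((rl s y).inv.mul (ir x k hk y)).mul (rl s y) |>.of_eq (mul_assoc _ _ _).symm rfl rfl,
      (ir _ _ (Subgroup.Normal.conj_mem inferInstance _ hk _) _).of_eq rfl rfl ?_⟩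
    by_cases e : y = x
    · simp [e, mul_assoc]
    · simp [e]
  · have e : m = pa fun x => ⟨_, (sm m hm x).2⟩ := ext _ _ fun x => ⟨_, _, (rl m x).of_eq rfl (sm m hm x).1 rfl, pr _ x⟩
    have pm : ∀ f, pa f ∈ St 0 := fun f => (hS 0 _).2 fun w hw => by
      cases w with
      | nil => rfl
      | cons y w => rw [pr, (hS 0 _).1 (f y).2 w (by simp at hw; omega)]
    let F : (Fin d → St 0) →* _ := MonoidHom.mk' (fun f => ψ (pa f)) fun f g => by rw [map_mul, hψ _ (pm f) _ (pm g)]
    have : F = ∏ x, (F.comp (MonoidHom.mulSingle (fun _ => St 0) x)).comp (Pi.evalMonoidHom (fun _ => St 0) x) := by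
      refine MonoidHom.pi_ext fun x k => ?_
      rw [MonoidHom.finsetProd_apply, Finset.prod_eq_single x (fun y _ h => by simp [h]) (by simp)]
      simp
    have := DFunLike.congr_fun this fun x => ⟨_, (sm m hm x).2⟩
    rw [MonoidHom.finsetProd_apply] at this
    refine (congrArg ψ e).trans (this.trans (Finset.prod_congr rfl fun x _ => ?_))
    simp only [ins, dif_pos (sm m hm x).2]
    rfl
  · have a := (St 0).mul_mem ((St 0).mul_mem hs hk) ((St 0).inv_mem hs)
    simp only [ψ, dif_pos hk, dif_pos a]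
    rw [show (⟨_, a⟩ : St 0) = ⟨s, hs⟩ * ⟨k, hk⟩ * ⟨s, hs⟩⁻¹ from rfl, map_mul, map_mul, map_inv, mul_inv_cancel_comm]
  · simp only [ψ, dif_pos (le0 n hk)]
    exact (QuotientGroup.eq_one_iff _).2 ⟨_, hk, rfl⟩

end Pool.Agent.Results.MP_66c699_al.Torsion
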